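import Pool.Agent.Helper92.FR.GoalsC

/-!
# Few rows in a box: the normalisation is polynomial time
-/

namespace Pool.Agent.Helper62.FR

open Pool.Agent.Helper81.CC Pool.Agent.Bin Pool.Agent.Helper92.VP Pool.Agent.Helper92.FR

variable {α : Type} [ToData α]

@[fun_prop] theorem PT_ofRQ {f : α → RQ} (hf : PolyTime f) : PolyTime (fun a => ofRQ (f a)) := by
  unfold ofRQ; fun_prop

@[fun_prop] theorem PT_wids {f : α → Inst} (hf : PolyTime f) : PolyTime (fun a => wids (f a)) := by
  unfold wids; fun_prop

@[fun_prop] theorem PT_rcoef {f : α → Inst} {g : α → List RQ × RQ} (hf : PolyTime f)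
    (hg : PolyTime g) : PolyTime (fun a => rcoef (f a) (g a)) := by
  unfold rcoef; fun_prop

@[fun_prop] theorem PT_rrhs {f : α → Inst} {g : α → List RQ × RQ} (hf : PolyTime f)
    (hg : PolyTime g) : PolyTime (fun a => rrhs (f a) (g a)) := by
  unfold rrhs; fun_prop

@[fun_prop] theorem PT_qnz {f : α → Qn} (hf : PolyTime f) : PolyTime (fun a => qnz (f a)) := by
  unfold qnz; fun_prop

@[fun_prop] theorem PT_rws {f : α → Inst} (hf : PolyTime f) : PolyTime (fun a => rws (f a)) := by
  unfold rws; fun_prop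

theorem PT_nin {f : α → Inst} (hf : PolyTime f) : PolyTime (fun a => nin (f a)) := by
  unfold nin; fun_prop

theorem PT_triv0 {f : α → Inst} (hf : PolyTime f) : PolyTime (fun a => triv0 (f a)) := by
  unfold triv0; fun_prop

theorem PT_toRQ {f : α → Qn} (hf : PolyTime f) : PolyTime (fun a => toRQ (f a)) := by
  unfold toRQ; fun_prop

/-- PTN. The normalisation is polynomial time. -/
theorem ptn : Pool.Agent.Helper92.FR.PtnStmt :=
  ⟨PT_nin PolyTime.id', PT_triv0 PolyTime.id', PT_wids PolyTime.id', PT_toRQ PolyTime.id'⟩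

end Pool.Agent.Helper62.FR
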