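import Pool.Agent.Helper55.FR.GoalsB

/-!
# Property B with several colours (Rosenfeld counting), packet FR-PRB
-/

namespace Pool.Agent.Helper62.FR

open Finset

open Classical in
lemma single {X : Type} [Fintype X] [DecidableEq X] (r : ℕ) (y : X) (i : Fin r)
    (E : (X → Fin r) → Prop)
    (hE : ∀ c c' : X → Fin r, (∀ x, x ≠ y → c x = c' x) → E c → E c') :
    r * ((univ : Finset (X → Fin r)).filter (fun c => E c ∧ c y ≠ i)).card
      = (r - 1) * ((univ : Finset (X → Fin r)).filter E).card := by
  have hf : ∀ j : Fin r, ((univ : Finset (X → Fin r)).filter (fun c => E c ∧ c y = j)).card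
      = ((univ : Finset (X → Fin r)).filter (fun c => E c ∧ c y = i)).card := by
    intro j
    refine Finset.card_bij' (fun c _ => Function.update c y i) (fun c _ => Function.update c y j)
      ?_ ?_ ?_ ?_
    · intro c hc
      simp only [mem_filter, mem_univ, true_and] at hc ⊢
      refine ⟨hE c _ (fun x hx => ?_) hc.1, by simp⟩
      simp [Function.update_of_ne hx]
    · intro c hc
      simp only [mem_filter, mem_univ, true_and] at hc ⊢
      refine ⟨hE c _ (fun x hx => ?_) hc.1, by simp⟩
      simp [Function.update_of_ne hx]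
    · intro c hc
      simp only [mem_filter, mem_univ, true_and] at hc ⊢
      funext x
      by_cases hx : x = y
      · subst hx; simp [hc.2]
      · simp [Function.update_of_ne hx]
    · intro c hc
      simp only [mem_filter, mem_univ, true_and] at hc ⊢
      funext x
      by_cases hx : x = y
      · subst hx; simp [hc.2]
      · simp [Function.update_of_ne hx]
  have h1 : ((univ : Finset (X → Fin r)).filter E).card
      = r * ((univ : Finset (X → Fin r)).filter (fun c => E c ∧ c y = i)).card := by
    rw [Finset.card_eq_sum_card_fiberwise (f := fun c : X → Fin r => c y) (t := univ)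
      (fun _ _ => by simp)]
    have : ∀ j ∈ (univ : Finset (Fin r)),
        (((univ : Finset (X → Fin r)).filter E).filter (fun c => c y = j)).card
        = ((univ : Finset (X → Fin r)).filter (fun c => E c ∧ c y = i)).card := by
      intro j _
      rw [Finset.filter_filter]
      exact hf j
    rw [Finset.sum_congr rfl this]
    simp
  have h2 : ((univ : Finset (X → Fin r)).filter (fun c => E c ∧ c y = i)).card
      + ((univ : Finset (X → Fin r)).filter (fun c => E c ∧ c y ≠ i)).card
      = ((univ : Finset (X → Fin r)).filter E).card := by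
    have := Finset.card_filter_add_card_filter_not
      (s := (univ : Finset (X → Fin r)).filter E) (fun c => c y = i)
    rw [Finset.filter_filter, Finset.filter_filter] at this
    exact this
  have hr : 1 ≤ r := by
    have := i.2
    omega
  obtain ⟨s, rfl⟩ : ∃ s, r = s + 1 := ⟨r - 1, by omega⟩
  set a := ((univ : Finset (X → Fin (s + 1))).filter (fun c => E c ∧ c y = i)).card
  set b := ((univ : Finset (X → Fin (s + 1))).filter (fun c => E c ∧ c y ≠ i)).card
  set e := ((univ : Finset (X → Fin (s + 1))).filter E).card
  have hb : b = s * a := by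
    have : a + b = (s + 1) * a := by rw [h2, h1]
    nlinarith
  rw [hb, h1]
  simp only [Nat.add_sub_cancel]
  ring

open Classical in
lemma multi {X : Type} [Fintype X] [DecidableEq X] (r : ℕ) (i : Fin r)
    (E : (X → Fin r) → Prop) (u : Finset X)
    (hE : ∀ c c' : X → Fin r, (∀ x, x ∉ u → c x = c' x) → E c → E c') :
    r ^ u.card * ((univ : Finset (X → Fin r)).filter (fun c => E c ∧ ∀ x ∈ u, c x ≠ i)).card
      = (r - 1) ^ u.card * ((univ : Finset (X → Fin r)).filter E).card := by
  induction u using Finset.induction_on with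
  | empty => simp
  | insert y u hy ih =>
    have ih' := ih (fun c c' h => hE c c' (fun x hx => h x (fun hxu => hx (mem_insert_of_mem hxu))))
    have hs := single r y i (fun c => E c ∧ ∀ x ∈ u, c x ≠ i) (by
      intro c c' h hc
      refine ⟨hE c c' (fun x hx => h x (fun hxy => hx (by rw [hxy]; exact mem_insert_self _ _))) hc.1,
        fun x hx => ?_⟩
      rw [← h x (fun hxy => hy (hxy ▸ hx))]
      exact hc.2 x hx)
    have heq : ((univ : Finset (X → Fin r)).filter
        (fun c => E c ∧ ∀ x ∈ insert y u, c x ≠ i))
        = ((univ : Finset (X → Fin r)).filter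
        (fun c => (E c ∧ ∀ x ∈ u, c x ≠ i) ∧ c y ≠ i)) := by
      ext c
      simp only [mem_filter, mem_univ, true_and, mem_insert, forall_eq_or_imp]
      tauto
    have hs' : r * ((univ : Finset (X → Fin r)).filter
        (fun c => E c ∧ ∀ x ∈ insert y u, c x ≠ i)).card
        = (r - 1) * ((univ : Finset (X → Fin r)).filter
        (fun c => E c ∧ ∀ x ∈ u, c x ≠ i)).card := by
      rw [heq]
      convert hs
    rw [card_insert_of_notMem hy, pow_succ, pow_succ, mul_assoc, hs', mul_left_comm, ih']
    ring

open Classical in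
/-- The number of functions which are good on `S`. -/
noncomputable def GG {X : Type} [Fintype X] [DecidableEq X] (r : ℕ) (U : Finset (Finset X))
    (S : Finset X) : ℝ :=
  (((univ : Finset (X → Fin r)).filter
    (fun c => ∀ u ∈ U, u ⊆ S → ∀ i, ∃ x ∈ u, c x = i)).card : ℝ)

lemma GG_nonneg {X : Type} [Fintype X] [DecidableEq X] (r : ℕ) (U : Finset (Finset X))
    (S : Finset X) : 0 ≤ GG r U S := by unfold GG; positivity

lemma chain {X : Type} [Fintype X] [DecidableEq X] (r : ℕ) (U : Finset (Finset X)) (l : ℝ)
    (hl : 0 ≤ l) (n : ℕ)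
    (h : ∀ T : Finset X, T.card < n → ∀ y, y ∉ T → l * GG r U T ≤ GG r U (insert y T))
    (T w : Finset X) (hd : Disjoint T w) (hc : (T ∪ w).card ≤ n) :
    l ^ w.card * GG r U T ≤ GG r U (T ∪ w) := by
  induction w using Finset.induction_on with
  | empty => simp
  | insert y w hy ih =>
    rw [Finset.disjoint_insert_right] at hd
    have hyT : y ∉ T ∪ w := by
      rw [mem_union]; push Not; exact ⟨hd.1, hy⟩
    have he : T ∪ insert y w = insert y (T ∪ w) := by
      ext z; simp only [mem_union, mem_insert]; tauto
    rw [he, card_insert_of_notMem hyT] at hc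
    have ih' := ih hd.2 (by omega)
    have h' := h (T ∪ w) (by omega) y hyT
    rw [he, card_insert_of_notMem hy, pow_succ]
    calc l ^ w.card * l * GG r U T = l * (l ^ w.card * GG r U T) := by ring
      _ ≤ l * GG r U (T ∪ w) := mul_le_mul_of_nonneg_left ih' hl
      _ ≤ _ := h'

open Classical in
lemma step {X : Type} [Fintype X] [DecidableEq X] (r : ℕ) (hr : 1 ≤ r) (U : Finset (Finset X))
    (hU : ∀ x, ∑ u ∈ U.filter (fun u => x ∈ u), ((1 - 1 / (4 * (r : ℝ))) ^ 2) ^ u.card ≤
      1 / (2 * (r : ℝ) ^ 2)) (n : ℕ) :
    ∀ S : Finset X, S.card < n → ∀ x, x ∉ S →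
      (1 - 1 / (2 * (r : ℝ))) * GG r U S ≤ GG r U (insert x S) := by
  induction n with
  | zero => intro S h; omega
  | succ n ih =>
    intro S hS x hx
    have hrR : (1 : ℝ) ≤ r := by exact_mod_cast hr
    set l : ℝ := 1 - 1 / (2 * (r : ℝ)) with hl
    have hl0 : 0 < l := by
      rw [hl, sub_pos, div_lt_one (by positivity)]
      linarith
    -- the bad colourings
    have key : GG r U S ≤ GG r U (insert x S) + ∑ u ∈ U.filter (fun u => x ∈ u),
        (r : ℝ) * (((1 - 1 / (4 * (r : ℝ))) ^ 2) ^ u.card * GG r U S) := by
      have hsub : ((univ : Finset (X → Fin r)).filter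
          (fun c => ∀ u ∈ U, u ⊆ S → ∀ i, ∃ x ∈ u, c x = i)) ⊆
          ((univ : Finset (X → Fin r)).filter
            (fun c => ∀ u ∈ U, u ⊆ insert x S → ∀ i, ∃ x ∈ u, c x = i)) ∪
          (U.filter (fun u => x ∈ u ∧ u ⊆ insert x S)).biUnion (fun u =>
            (univ : Finset (Fin r)).biUnion (fun i =>
              (univ : Finset (X → Fin r)).filter (fun c =>
                (∀ u' ∈ U, u' ⊆ insert x S \ u → ∀ i, ∃ x ∈ u', c x = i) ∧
                  ∀ y ∈ u, c y ≠ i))) := by
        intro c hc
        simp only [mem_filter, mem_univ, true_and, mem_union, mem_biUnion] at hc ⊢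
        by_cases hg : ∀ u ∈ U, u ⊆ insert x S → ∀ i, ∃ x ∈ u, c x = i
        · exact Or.inl hg
        · right
          push Not at hg
          obtain ⟨u, huU, huS, i, hi⟩ := hg
          have hxu : x ∈ u := by
            by_contra hxu
            have huS' : u ⊆ S := by
              intro z hz
              have := huS hz
              rw [mem_insert] at this
              rcases this with rfl | h
              · exact absurd hz hxu
              · exact h
            obtain ⟨z, hz, hz'⟩ := hc u huU huS' i
            exact hi z hz hz'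
          refine ⟨u, ⟨huU, hxu, huS⟩, i, fun u' hu' hu'' j => hc u' hu' (fun z hz => ?_) j,
            fun y hy => hi y hy⟩
          have := hu'' hz
          rw [mem_sdiff, mem_insert] at this
          rcases this.1 with rfl | h
          · exact absurd hxu this.2
          · exact h
      have hcard := (card_le_card hsub).trans (card_union_le _ _)
      have hcard2 := hcard.trans (Nat.add_le_add_left (card_biUnion_le.trans
        (Finset.sum_le_sum (fun u _ => card_biUnion_le))) _)
      have hcard3 : GG r U S ≤ GG r U (insert x S) +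
          ∑ u ∈ U.filter (fun u => x ∈ u ∧ u ⊆ insert x S), ∑ i : Fin r,
            (((univ : Finset (X → Fin r)).filter (fun c =>
                (∀ u' ∈ U, u' ⊆ insert x S \ u → ∀ i, ∃ x ∈ u', c x = i) ∧
                  ∀ y ∈ u, c y ≠ i)).card : ℝ) := by
        unfold GG
        exact_mod_cast hcard2
      refine hcard3.trans (add_le_add le_rfl ?_)
      have hsubf : U.filter (fun u => x ∈ u ∧ u ⊆ insert x S) ⊆ U.filter (fun u => x ∈ u) := by
        intro u hu
        rw [mem_filter] at hu ⊢
        exact ⟨hu.1, hu.2.1⟩
      refine le_trans ?_ (Finset.sum_le_sum_of_subset_of_nonneg hsubf (fun u _ _ => ?_))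
      · refine Finset.sum_le_sum (fun u hu => ?_)
        rw [mem_filter] at hu
        obtain ⟨huU, hxu, huS⟩ := hu
        have hone : ∀ i : Fin r, (((univ : Finset (X → Fin r)).filter (fun c =>
                (∀ u' ∈ U, u' ⊆ insert x S \ u → ∀ i, ∃ x ∈ u', c x = i) ∧
                  ∀ y ∈ u, c y ≠ i)).card : ℝ) ≤
              ((1 - 1 / (4 * (r : ℝ))) ^ 2) ^ u.card * GG r U S := by
          intro i
          have hm := multi r i (fun c : X → Fin r =>
            ∀ u' ∈ U, u' ⊆ insert x S \ u → ∀ i, ∃ x ∈ u', c x = i) u (by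
              intro c c' h hc u' hu' hu'' j
              obtain ⟨z, hz, hz'⟩ := hc u' hu' hu'' j
              refine ⟨z, hz, ?_⟩
              rw [← h z (mem_sdiff.1 (hu'' hz)).2]
              exact hz')
          have hch := chain r U l hl0.le n ih (insert x S \ u) (u.erase x)
            (by
              rw [Finset.disjoint_left]
              intro z hz hz'
              exact (mem_sdiff.1 hz).2 (mem_of_mem_erase hz'))
            (by
              have : (insert x S \ u) ∪ u.erase x ⊆ S := by
                intro z hz
                rw [mem_union] at hz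
                rcases hz with hz | hz
                · rw [mem_sdiff, mem_insert] at hz
                  rcases hz.1 with rfl | h
                  · exact absurd hxu hz.2
                  · exact h
                · have h1 := huS (mem_of_mem_erase hz)
                  rw [mem_insert] at h1
                  rcases h1 with h1 | h1
                  · exact absurd h1 (ne_of_mem_erase hz)
                  · exact h1
              exact (card_le_card this).trans (by omega))
          have hunion : (insert x S \ u) ∪ u.erase x = S := by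
            ext z
            simp only [mem_union, mem_sdiff, mem_insert, mem_erase]
            constructor
            · rintro (⟨h1 | h1, h2⟩ | ⟨h1, h2⟩)
              · exact absurd (h1 ▸ hxu) h2
              · exact h1
              · have h3 := huS h2
                rw [mem_insert] at h3
                rcases h3 with h3 | h3
                · exact absurd h3 h1
                · exact h3
            · intro hz
              by_cases hzu : z ∈ u
              · exact Or.inr ⟨fun h => hx (h ▸ hz), hzu⟩
              · exact Or.inl ⟨Or.inr hz, hzu⟩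
          rw [hunion, card_erase_of_mem hxu] at hch
          have hb : 1 ≤ u.card := Finset.card_pos.2 ⟨x, hxu⟩
          obtain ⟨b, hbb⟩ : ∃ b, u.card = b + 1 := ⟨u.card - 1, by omega⟩
          rw [hbb] at hm hch ⊢
          simp only [Nat.add_sub_cancel] at hch
          set A := (((univ : Finset (X → Fin r)).filter (fun c =>
                (∀ u' ∈ U, u' ⊆ insert x S \ u → ∀ i, ∃ x ∈ u', c x = i) ∧
                  ∀ y ∈ u, c y ≠ i)).card : ℝ) with hA
          have hmR : (r : ℝ) ^ (b + 1) * A = ((r : ℝ) - 1) ^ (b + 1) * GG r U (insert x S \ u) := by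
            rw [hA]
            unfold GG
            have hmR' : ((r ^ (b + 1) * ((univ : Finset (X → Fin r)).filter (fun c =>
                (∀ u' ∈ U, u' ⊆ insert x S \ u → ∀ i, ∃ x ∈ u', c x = i) ∧
                  ∀ y ∈ u, c y ≠ i)).card : ℕ) : ℝ) = (((r - 1) ^ (b + 1) *
                ((univ : Finset (X → Fin r)).filter
            (fun c => ∀ u' ∈ U, u' ⊆ insert x S \ u → ∀ i, ∃ x ∈ u', c x = i)).card : ℕ) : ℝ) := by
              refine congrArg (Nat.cast : ℕ → ℝ) ?_
              convert hm
            rw [Nat.cast_mul, Nat.cast_mul, Nat.cast_pow, Nat.cast_pow, Nat.cast_sub hr,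
              Nat.cast_one] at hmR'
            exact hmR'
          -- numerics
          have hq : ((r : ℝ) - 1) / r ≤ l * (1 - 1 / (4 * (r : ℝ))) ^ 2 := by
            rw [hl]
            have hr0 : (r : ℝ) ≠ 0 := by positivity
            have h1 : l * (1 - 1 / (4 * (r : ℝ))) ^ 2 - ((r : ℝ) - 1) / r
                = (5 * r - 1 / 1 * (1 / 2)) / (16 * r ^ 3) * (r / 1 - r / 1) +
                  (l * (1 - 1 / (4 * (r : ℝ))) ^ 2 - ((r : ℝ) - 1) / r) := by ring
            have h2 : (1 - 1 / (2 * (r : ℝ))) * (1 - 1 / (4 * (r : ℝ))) ^ 2 - ((r : ℝ) - 1) / r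
                = (10 * r - 1) / (32 * r ^ 3) := by
              field_simp
              ring
            have h3 : 0 ≤ (10 * (r : ℝ) - 1) / (32 * r ^ 3) := by
              apply div_nonneg <;> [linarith; positivity]
            linarith
          have hr1 : 0 ≤ ((r : ℝ) - 1) / r := by
            apply div_nonneg <;> linarith
          have hA2 : A = (((r : ℝ) - 1) / r) ^ (b + 1) * GG r U (insert x S \ u) := by
            rw [div_pow, div_mul_eq_mul_div, eq_div_iff (by positivity)]
            linarith [hmR]
          have hl1 : l ≤ 1 := by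
            rw [hl]
            have : (0 : ℝ) ≤ 1 / (2 * (r : ℝ)) := by positivity
            linarith
          calc A = (((r : ℝ) - 1) / r) ^ (b + 1) * GG r U (insert x S \ u) := hA2
            _ ≤ (l * (1 - 1 / (4 * (r : ℝ))) ^ 2) ^ (b + 1) * GG r U (insert x S \ u) :=
                mul_le_mul_of_nonneg_right (pow_le_pow_left₀ hr1 hq _) (GG_nonneg _ _ _)
            _ = l * (((1 - 1 / (4 * (r : ℝ))) ^ 2) ^ (b + 1) *
                  (l ^ b * GG r U (insert x S \ u))) := by rw [mul_pow]; ring
            _ ≤ 1 * (((1 - 1 / (4 * (r : ℝ))) ^ 2) ^ (b + 1) * GG r U S) := by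
                refine mul_le_mul hl1 (mul_le_mul_of_nonneg_left hch (by positivity)) ?_ zero_le_one
                have := GG_nonneg r U (insert x S \ u)
                positivity
            _ = _ := one_mul _
        calc _ ≤ ∑ i : Fin r, ((1 - 1 / (4 * (r : ℝ))) ^ 2) ^ u.card * GG r U S :=
              Finset.sum_le_sum (fun i _ => hone i)
          _ = _ := by simp
      · have := GG_nonneg r U S
        positivity
    have hsum : ∑ u ∈ U.filter (fun u => x ∈ u),
        (r : ℝ) * (((1 - 1 / (4 * (r : ℝ))) ^ 2) ^ u.card * GG r U S)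
        = (r : ℝ) * GG r U S * ∑ u ∈ U.filter (fun u => x ∈ u),
          ((1 - 1 / (4 * (r : ℝ))) ^ 2) ^ u.card := by
      rw [Finset.mul_sum]
      refine Finset.sum_congr rfl (fun u _ => ?_)
      ring
    rw [hsum] at key
    have h1 : (r : ℝ) * GG r U S * ∑ u ∈ U.filter (fun u => x ∈ u),
          ((1 - 1 / (4 * (r : ℝ))) ^ 2) ^ u.card ≤ (r : ℝ) * GG r U S * (1 / (2 * (r : ℝ) ^ 2)) :=
      mul_le_mul_of_nonneg_left (hU x) (by have := GG_nonneg r U S; positivity)
    have h2 : (r : ℝ) * GG r U S * (1 / (2 * (r : ℝ) ^ 2)) = 1 / (2 * (r : ℝ)) * GG r U S := by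
      have hr0 : (r : ℝ) ≠ 0 := by positivity
      field_simp
    rw [h2] at h1
    rw [hl]
    linarith

open Classical in
theorem propB {X : Type} [Fintype X] [DecidableEq X] (r : ℕ) (hr : 1 ≤ r)
    (U : Finset (Finset X)) (hne : ∀ u ∈ U, u.Nonempty)
    (hU : ∀ x, ∑ u ∈ U.filter (fun u => x ∈ u), ((1 - 1 / (4 * (r : ℝ))) ^ 2) ^ u.card ≤
      1 / (2 * (r : ℝ) ^ 2)) :
    ∃ c : X → Fin r, ∀ u ∈ U, ∀ i, ∃ x ∈ u, c x = i := by
  have hrR : (1 : ℝ) ≤ r := by exact_mod_cast hr
  set l : ℝ := 1 - 1 / (2 * (r : ℝ)) with hl
  have hl0 : 0 < l := by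
    rw [hl, sub_pos, div_lt_one (by positivity)]
    linarith
  have h := chain r U l hl0.le (Fintype.card X) (step r hr U hU (Fintype.card X)) ∅ univ
    (by simp) (by simp [Finset.card_univ])
  have h0 : 0 < GG r U ∅ := by
    unfold GG
    have : ((univ : Finset (X → Fin r)).filter
        (fun c => ∀ u ∈ U, u ⊆ ∅ → ∀ i, ∃ x ∈ u, c x = i)).Nonempty := by
      refine ⟨fun _ => ⟨0, hr⟩, ?_⟩
      simp only [mem_filter, mem_univ, true_and]
      intro u hu hu'
      have := hne u hu
      rw [subset_empty.1 hu'] at this
      exact absurd this (by simp)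
    exact_mod_cast Finset.card_pos.2 this
  have h1 : 0 < GG r U (∅ ∪ univ) := lt_of_lt_of_le (by positivity) h
  unfold GG at h1
  have h2 : 0 < ((univ : Finset (X → Fin r)).filter
      (fun c => ∀ u ∈ U, u ⊆ ∅ ∪ univ → ∀ i, ∃ x ∈ u, c x = i)).card := by exact_mod_cast h1
  obtain ⟨c, hc⟩ := Finset.card_pos.1 h2
  simp only [mem_filter, mem_univ, true_and] at hc
  exact ⟨c, fun u hu i => hc u hu (fun z _ => by simp) i⟩

theorem prb : Pool.Agent.Helper55.FR.PrbStmt := by
  classical
  intro V _ _ m hmm hmv r hr U hUinv hU
  set π : V → Finset V := fun v => {v, m v} with hπ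
  have hπm : ∀ v, π (m v) = π v := by
    intro v
    simp only [hπ, hmm]
    exact Finset.pair_comm _ _
  have hπe : ∀ v w, π v = π w → w = v ∨ w = m v := by
    intro v w h
    have : w ∈ π v := by rw [h]; simp [hπ]
    simpa [hπ] using this
  have hmem : ∀ u ∈ U, ∀ v, π v ∈ u.image π ↔ v ∈ u := by
    intro u hu v
    rw [mem_image]
    constructor
    · rintro ⟨w, hw, hwv⟩
      rcases hπe w v hwv with rfl | rfl
      · exact hw
      · exact (hUinv u hu).2 w hw
    · intro hv
      exact ⟨v, hv, rfl⟩
  have hcard : ∀ u ∈ U, u.card = 2 * (u.image π).card := by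
    intro u hu
    rw [Finset.card_eq_sum_card_image π u]
    have : ∀ b ∈ u.image π, (u.filter (fun a => π a = b)).card = 2 := by
      intro b hb
      obtain ⟨v, hv, rfl⟩ := mem_image.1 hb
      have : u.filter (fun a => π a = π v) = {v, m v} := by
        ext w
        simp only [mem_filter, mem_insert, mem_singleton]
        constructor
        · rintro ⟨_, h⟩
          exact hπe v w h.symm
        · rintro (rfl | rfl)
          · exact ⟨hv, rfl⟩
          · exact ⟨(hUinv u hu).2 v hv, hπm v⟩
      rw [this, Finset.card_pair (fun h => hmv v h.symm)]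
    rw [Finset.sum_congr rfl this]
    simp [mul_comm]
  have hinj : ∀ u ∈ U, ∀ u' ∈ U, u.image π = u'.image π → u = u' := by
    intro u hu u' hu' h
    ext v
    rw [← hmem u hu, ← hmem u' hu', h]
  obtain ⟨c, hc⟩ := propB (X := Finset V) r hr (U.image (fun u => u.image π))
    (by
      intro w hw
      obtain ⟨u, hu, rfl⟩ := mem_image.1 hw
      exact (hUinv u hu).1.image _)
    (by
      intro x
      by_cases hx : ∃ v, x = π v
      · obtain ⟨v, rfl⟩ := hx
        refine le_trans (le_of_eq ?_) (hU v)
        have hfi : (U.image (fun u => u.image π)).filter (fun u => π v ∈ u)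
            = (U.filter (fun u => v ∈ u)).image (fun u => u.image π) := by
          ext w
          simp only [mem_filter, mem_image]
          constructor
          · rintro ⟨⟨u, hu, rfl⟩, hv⟩
            exact ⟨u, ⟨hu, (hmem u hu v).1 hv⟩, rfl⟩
          · rintro ⟨u, ⟨hu, hv⟩, rfl⟩
            exact ⟨⟨u, hu, rfl⟩, (hmem u hu v).2 hv⟩
        rw [hfi, Finset.sum_image]
        · refine Finset.sum_congr rfl (fun u hu => ?_)
          rw [← pow_mul, ← hcard u (mem_filter.1 hu).1]
        · intro u hu u' hu' h
          exact hinj u (mem_filter.1 hu).1 u' (mem_filter.1 hu').1 h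
      · have : (U.image (fun u => u.image π)).filter (fun u => x ∈ u) = ∅ := by
          rw [Finset.filter_eq_empty_iff]
          intro w hw hxw
          obtain ⟨u, hu, rfl⟩ := mem_image.1 hw
          obtain ⟨v, hv, hv'⟩ := mem_image.1 hxw
          exact hx ⟨v, hv'.symm⟩
        rw [this, Finset.sum_empty]
        positivity)
  refine ⟨fun v => c (π v), fun v => by simp only [hπm], fun u hu i => ?_⟩
  obtain ⟨x, hx, hxi⟩ := hc (u.image π) (mem_image_of_mem _ hu) i
  obtain ⟨v, hv, rfl⟩ := mem_image.1 hx
  exact ⟨v, hv, hxi⟩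

end Pool.Agent.Helper62.FR
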